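import Mathlib
import Pool.Agent.U37.MQ.Stm

/-!
Project MQ, package LOC: the local count of the failures of Miquel's theorem.
-/

set_option autoImplicit false

namespace Pool.Agent.U608.MQ.LOC

open Finset Equiv Pool.Agent.U37.MQ Pool.Agent.N606.ST Pool.Agent.U671.PG
open scoped Classical

theorem t_LOC : S_LINK → S_LOC := by
  intro hL V _ n B hn hI g hg k hk hne
  obtain ⟨t, ht⟩ := hne
  simp only [fails, mem_filter, mem_univ, true_and] at ht
  obtain ⟨htinj, htm, ht1, ht2, ht3, ht4⟩ := ht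
  have hgk : g ≠ k := by
    rintro rfl
    exact (htm 0).2.1 (htm 0).1
  obtain ⟨I, hsym, hinv, -, -, hlink⟩ := hL V n B (by omega) hI g hg k hk hgk
  have hinv' : ∀ x y, (I x y)⁻¹ = I x y := fun x y => inv_eq_of_mul_eq_one_left (hinv x y)
  have hcard : n - 1 ≤ Fintype.card {x : V // x ∈ g ∧ x ∉ k} := by
    have h1 : Fintype.card {x : V // x ∈ g ∧ x ∉ k} = (g \ k).card := by
      rw [Fintype.card_subtype]; congr 1; ext; simp
    rw [h1]
    have h0 := hI.two g hg k hk hgk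
    have h2 := Finset.card_sdiff_add_card_inter g k
    have h3 := hI.cb g hg
    omega
  -- the first bad quadruple
  set x : Fin 4 → {x : V // x ∈ g ∧ x ∉ k} := fun i => ⟨t.1 i, (htm i).1, (htm i).2.1⟩ with hx
  set A : Fin 4 → {y : V // y ∈ k ∧ y ∉ g} := fun i => ⟨t.2 i, (htm i).2.2.1, (htm i).2.2.2⟩
    with hA
  have e1 : I (x 0) (x 1) (A 0) = A 1 := (hlink _ _ _ _).2 ht1
  have e2 : I (x 1) (x 2) (A 1) = A 2 := (hlink _ _ _ _).2 ht2
  have e3 : I (x 2) (x 3) (A 2) = A 3 := (hlink _ _ _ _).2 ht3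
  have e4 : I (x 3) (x 0) (A 3) ≠ A 0 := fun h => ht4 ((hlink _ _ _ _).1 h)
  have hxi : ∀ i j, i ≠ j → x i ≠ x j := by
    intro i j hij h
    exact hij (htinj (Subtype.ext_iff.1 h))
  have bad0 : I (x 3) (x 0) * I (x 2) (x 3) * I (x 1) (x 2) * I (x 0) (x 1) ≠ 1 := by
    intro h
    have := congrArg (fun s : Perm {y : V // y ∈ k ∧ y ∉ g} => s (A 0)) h
    simp only [Perm.mul_apply, e1, e2, e3, Perm.one_apply] at this
    exact e4 this
  -- bad quadruples
  have eqv1 : ∀ a b c d, I d a * I c d * I b c * I a b ≠ 1 ↔ I b c * I a b ≠ I d c * I a d := by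
    intro a b c d
    have : I d a * I c d * I b c * I a b = 1 ↔ I b c * I a b = I d c * I a d := by
      rw [mul_assoc, mul_eq_one_iff_inv_eq, mul_inv_rev, hinv', hinv', hsym c d, hsym d a]
      exact eq_comm
    rw [Ne, Ne, this]
  have eqv2 : ∀ a b c d, I d a * I c d * I b c * I a b ≠ 1 ↔ I d a * I a b ≠ I d c * I c b := by
    intro a b c d
    have : I d a * I c d * I b c * I a b = 1 ↔ I d a * I a b = I d c * I c b := by
      rw [mul_eq_one_iff_eq_inv, mul_assoc, ← eq_inv_mul_iff_mul_eq, hinv', hinv', hsym c d,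
        hsym b c]
      exact eq_comm
    rw [Ne, Ne, this]
  have st1 : ∀ y, y ≠ x 0 → y ≠ x 2 → ∃ p, p ≠ x 0 ∧ p ≠ x 2 ∧
      I p (x 0) * I (x 2) p * I y (x 2) * I (x 0) y ≠ 1 := by
    intro y hy0 hy2
    have h0 := (eqv1 _ _ _ _).1 bad0
    by_cases h : I y (x 2) * I (x 0) y = I (x 1) (x 2) * I (x 0) (x 1)
    · exact ⟨x 3, hxi _ _ (by decide), hxi _ _ (by decide), (eqv1 _ _ _ _).2 (by rw [h]; exact h0)⟩
    · exact ⟨x 1, hxi _ _ (by decide), hxi _ _ (by decide), (eqv1 _ _ _ _).2 h⟩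
  choose! p hp0 hp2 hpb using st1
  have hyp : ∀ y, y ≠ x 0 → y ≠ x 2 → y ≠ p y := by
    intro y h0 h2 h
    apply (eqv1 _ _ _ _).1 (hpb y h0 h2)
    rw [← h]
  have st2 : ∀ y a, y ≠ x 0 → y ≠ x 2 → a ≠ y → a ≠ p y → ∃ z, z ≠ y ∧ z ≠ p y ∧
      I (p y) a * I z (p y) * I y z * I a y ≠ 1 := by
    intro y a hy0 hy2 hay hap
    have h0 := (eqv2 _ _ _ _).1 (hpb y hy0 hy2)
    by_cases h : I (p y) a * I a y = I (p y) (x 0) * I (x 0) y
    · exact ⟨x 2, hy2.symm, (hp2 y hy0 hy2).symm, (eqv2 _ _ _ _).2 (by rw [h]; exact h0)⟩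
    · exact ⟨x 0, hy0.symm, (hp0 y hy0 hy2).symm, (eqv2 _ _ _ _).2 h⟩
  choose! z hzy hzp hzb using st2
  have haz : ∀ y a, y ≠ x 0 → y ≠ x 2 → a ≠ y → a ≠ p y → a ≠ z y a := by
    intro y a h0 h2 h3 h4 h
    apply (eqv2 _ _ _ _).1 (hzb y a h0 h2 h3 h4)
    rw [← h]
  -- the count
  let σ : {x : V // x ∈ g ∧ x ∉ k} → {x : V // x ∈ g ∧ x ∉ k} → Perm {y : V // y ∈ k ∧ y ∉ g} :=
    fun y a => I (p y) a * I (z y a) (p y) * I y (z y a) * I a y
  let S : Finset (Σ _ : {x : V // x ∈ g ∧ x ∉ k}, Σ _ : {x : V // x ∈ g ∧ x ∉ k},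
      {y : V // y ∈ k ∧ y ∉ g}) :=
    (((univ.erase (x 0)).erase (x 2)).sigma fun y =>
      (((univ.erase y).erase (p y)).sigma fun a => (σ y a).support))
  have hS : 2 * (n - 3) ^ 2 ≤ S.card := by
    have hc : ∀ u v : {x : V // x ∈ g ∧ x ∉ k}, n - 3 ≤ ((univ.erase u).erase v).card := by
      intro u v
      have h1 : Fintype.card {x : V // x ∈ g ∧ x ∉ k} - 1 ≤ (univ.erase u).card := by
        rw [card_erase_of_mem (mem_univ _), card_univ]
      have h2 : (univ.erase u).card - 1 ≤ ((univ.erase u).erase v).card :=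
        Finset.pred_card_le_card_erase
      omega
    calc 2 * (n - 3) ^ 2 = (n - 3) * ((n - 3) * 2) := by ring
      _ ≤ ((univ.erase (x 0)).erase (x 2)).card * ((n - 3) * 2) := Nat.mul_le_mul_right _ (hc _ _)
      _ = ∑ _y ∈ (univ.erase (x 0)).erase (x 2), (n - 3) * 2 := by
        rw [sum_const, smul_eq_mul]
      _ ≤ ∑ y ∈ (univ.erase (x 0)).erase (x 2),
          (((univ.erase y).erase (p y)).sigma fun a => (σ y a).support).card := by
        refine sum_le_sum fun y hy => ?_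
        rw [mem_erase, mem_erase] at hy
        rw [card_sigma]
        calc (n - 3) * 2 ≤ ((univ.erase y).erase (p y)).card * 2 := Nat.mul_le_mul_right _ (hc _ _)
          _ = ∑ _a ∈ (univ.erase y).erase (p y), 2 := by rw [sum_const, smul_eq_mul]
          _ ≤ _ := by
            refine sum_le_sum fun a ha => ?_
            rw [mem_erase, mem_erase] at ha
            exact Perm.one_lt_card_support_of_ne_one (hzb y a hy.2.1 hy.1 ha.2.1 ha.1)
      _ = S.card := (card_sigma _ _).symm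
  refine hS.trans ?_
  refine Finset.card_le_card_of_injOn (fun s => ((![(s.2.1 : V), s.1, z s.1 s.2.1, p s.1],
    ![(s.2.2 : V), I s.2.1 s.1 s.2.2, I s.1 (z s.1 s.2.1) (I s.2.1 s.1 s.2.2),
      I (z s.1 s.2.1) (p s.1) (I s.1 (z s.1 s.2.1) (I s.2.1 s.1 s.2.2))]) :
      (Fin 4 → V) × (Fin 4 → V))) ?_ ?_
  · rintro ⟨y, a, C⟩ hs
    simp only [S, coe_sigma, Set.mem_sigma_iff, mem_coe, mem_sigma, mem_erase, mem_univ, and_true,
      Perm.mem_support] at hs
    obtain ⟨⟨hy2, hy0⟩, ⟨hap, hay⟩, hC⟩ := hs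
    have q1 := haz y a hy0 hy2 hay hap
    have q2 := hzy y a hy0 hy2 hay hap
    have q3 := hzp y a hy0 hy2 hay hap
    have q4 := hyp y hy0 hy2
    simp only [mem_coe, fails, mem_filter, mem_univ, true_and]
    refine ⟨?_, ?_, ?_, ?_, ?_, ?_⟩
    · have hv : ∀ u v : {x : V // x ∈ g ∧ x ∉ k}, u ≠ v → (u : V) ≠ v :=
        fun u v h h' => h (Subtype.ext h')
      intro i j hij
      fin_cases i <;> fin_cases j <;> simp at hij ⊢ <;>
        first
          | exact hay hij | exact hay hij.symm | exact hap hij | exact hap hij.symm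
          | exact q1 hij | exact q1 hij.symm | exact q2 hij | exact q2 hij.symm
          | exact q3 hij | exact q3 hij.symm | exact q4 hij | exact q4 hij.symm
          | exact hv _ _ hay hij | exact hv _ _ hay hij.symm
          | exact hv _ _ hap hij | exact hv _ _ hap hij.symm
          | exact hv _ _ q1 hij | exact hv _ _ q1 hij.symm
          | exact hv _ _ q2 hij | exact hv _ _ q2 hij.symm
          | exact hv _ _ q3 hij | exact hv _ _ q3 hij.symm
          | exact hv _ _ q4 hij | exact hv _ _ q4 hij.symm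
    · intro i
      fin_cases i
      · exact ⟨a.2.1, a.2.2, C.2.1, C.2.2⟩
      · exact ⟨y.2.1, y.2.2, (I a y C).2.1, (I a y C).2.2⟩
      · exact ⟨(z y a).2.1, (z y a).2.2, (I y (z y a) (I a y C)).2.1, (I y (z y a) (I a y C)).2.2⟩
      · exact ⟨(p y).2.1, (p y).2.2, (I (z y a) (p y) (I y (z y a) (I a y C))).2.1,
          (I (z y a) (p y) (I y (z y a) (I a y C))).2.2⟩
    · exact (hlink a y C _).1 rfl
    · exact (hlink y (z y a) _ _).1 rfl
    · exact (hlink (z y a) (p y) _ _).1 rfl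
    · intro h
      exact hC ((hlink (p y) a _ C).2 h)
  · rintro ⟨y, a, C⟩ - ⟨y', a', C'⟩ - h
    simp only [Prod.mk.injEq] at h
    have h1 := congrFun h.1 0
    have h2 := congrFun h.1 1
    have h3 := congrFun h.2 0
    simp at h1 h2 h3
    have h1' : a = a' := Subtype.ext h1
    have h2' : y = y' := Subtype.ext h2
    have h3' : C = C' := Subtype.ext h3
    subst h1' h2' h3'
    rfl

end Pool.Agent.U608.MQ.LOC
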